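import Pool.Agent.Helper66.IL.Branch
import Pool.Agent.Helper60.Idg.Upper

/-!
From the order on positions to the game on graphs.
-/

namespace Pool.Agent.Helper66.IL

open Pool.Agent.Helper44.Idg (Gm Cm)
open Pool.Agent.Helper60.Idg (B vws kids Pos del res del_card)

/-- an unmarked branch -/
def emb : B → MB
  | .e => .e
  | .n x y => .n false (emb x) (emb y)

theorem emb_size (b : B) : (emb b).size = b.size := by
  induction b with
  | e => rfl
  | n x y ihx ihy => simp only [emb, MB.size, Helper60.Idg.B.size, ihx, ihy]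

/-- a list of closed branches as a position -/
def toK (L : List B) : Multiset K := (L.map (fun b => (emb b, MB.e)) : List K)

theorem toK_nil : toK [] = 0 := rfl

theorem toK_cons (b : B) (L : List B) : toK (b :: L) = (emb b, .e) ::ₘ toK L := rfl

theorem toK_append (L L' : List B) : toK (L ++ L') = toK L + toK L' := by
  simp [toK]

theorem toK_perm {L L' : List B} (h : L.Perm L') : toK L = toK L' :=
  Multiset.coe_eq_coe.mpr (h.map _)

theorem toK_ch (b : B) : toK (Helper60.Idg.ch b) = ch (emb b) := by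
  cases b with
  | e => rfl
  | n x y => rfl

theorem toK_kids (v : B × B × B) :
    toK (kids v) = ch (emb v.1) + (ch (emb v.2.1) + ch (emb v.2.2)) := by
  rw [kids, toK_append, toK_append, toK_ch, toK_ch, toK_ch]

theorem view_eq : ∀ (b up : B), ∀ v ∈ vws up b,
    PEq {(emb b, emb up)} {(.n false (emb v.1) (emb v.2.1), emb v.2.2)} := by
  intro b
  induction b with
  | e => intro up v hv; simp [vws] at hv
  | n x y ihx ihy =>
    intro up v hv
    rw [vws, List.mem_cons, List.mem_append] at hv
    rcases hv with rfl | hv | hv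
    · exact PEq.refl _
    · exact (PEq.rho false (emb x) (emb y) (emb up)).trans (ihx _ v hv)
    · exact (PEq.sw false (emb x) (emb y) (emb up)).trans
        ((PEq.rho false (emb y) (emb x) (emb up)).trans (ihy _ v hv))

theorem view_move {b : B} {v : B × B × B} (hv : v ∈ vws .e b) :
    ∃ F, cmv (emb b, .e) F ∧ PEq (toK (kids v)) F := by
  have h1 : pg.mv {(.n false (emb v.1) (emb v.2.1), emb v.2.2)} (toK (kids v)) := by
    rw [mv_single]
    have h := cmv.bR (b := .n false (emb v.1) (emb v.2.1)) (c := emb v.2.2) (by simp)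
    rw [sel_n] at h
    rw [toK_kids, ← add_assoc]
    exact h
  obtain ⟨F, h2, h3⟩ := (view_eq b .e v hv).sim.1.2 _ h1
  exact ⟨F, mv_single.mp h2, h3.symm⟩

theorem OA_view {b : B} {b' : MB} {f : Multiset K} (h : OA (emb b) b' f) : ∀ up : B,
    ∃ v ∈ vws up b, PEq (toK (kids v)) ((b', emb up) ::ₘ f) := by
  have root : ∀ x : B, x ≠ .e → ∀ up, ∃ v ∈ vws up x, toK (kids v) = sel (emb x) + ch (emb up) := by
    intro x hx up
    cases x with
    | e => exact absurd rfl hx
    | n p q =>
      refine ⟨(p, q, up), by simp [vws], ?_⟩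
      rw [toK_kids, emb, sel_n, add_assoc]
  have hne : ∀ x : B, emb x ≠ .e → x ≠ .e := by rintro x h rfl; exact h rfl
  induction b generalizing b' f with
  | e => exact absurd rfl h.ne
  | n x y ihx ihy =>
    intro up
    simp only [emb] at h
    cases h with
    | @l _ _ _ x' _ h =>
      obtain ⟨v, hv, hP⟩ := ihx h (.n y up)
      refine ⟨v, by simp [vws, hv], hP.trans ?_⟩
      exact (PEq.rho false x' (emb y) (emb up)).symm.cons2 (PEq.refl _)
    | @r _ _ _ y' _ h =>
      obtain ⟨v, hv, hP⟩ := ihy h (.n x up)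
      refine ⟨v, by simp [vws, hv], hP.trans ?_⟩
      exact ((PEq.rho false y' (emb x) (emb up)).symm.trans
        (PEq.sw false y' (emb x) (emb up))).cons2 (PEq.refl _)
    | kl hx =>
      obtain ⟨v, hv, hP⟩ := root x (hne x hx) (.n y up)
      refine ⟨v, by simp [vws, hv], ?_⟩
      rw [hP, emb, ch_n]
      refine (PEq.of_eq ?_).trans ((PEq.sig (emb up) .e).cons2 (PEq.refl _))
      simp only [Multiset.insert_eq_cons, ← Multiset.singleton_add]
      abel
    | kr hy =>
      obtain ⟨v, hv, hP⟩ := root y (hne y hy) (.n x up)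
      refine ⟨v, by simp [vws, hv], ?_⟩
      rw [hP, emb, ch_n]
      refine (PEq.of_eq ?_).trans ((PEq.sig (emb up) .e).cons2 (PEq.refl _))
      simp only [Multiset.insert_eq_cons, ← Multiset.singleton_add]
      abel

theorem cmv_view {b : B} {F : Multiset K} (h : cmv (emb b, .e) F) :
    ∃ v ∈ vws .e b, PEq (toK (kids v)) F := by
  cases h with
  | bA h => exact OA_view h .e
  | cA h => exact absurd rfl h.ne
  | bR h =>
    cases b with
    | e => exact absurd rfl h
    | n p q =>
      refine ⟨(p, q, .e), by simp [vws], PEq.of_eq ?_⟩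
      rw [toK_kids, ← add_assoc]
      simp only [emb, sel_n]
  | cR h => exact absurd rfl h

open scoped Classical in
theorem real_move {V : Type} {G : SimpleGraph V} {L : List B} {A : Finset V} {X : Multiset K}
    (h : Pos G L A) (hX : PEq (toK L) X) {u : V} (hu : u ∈ A) :
    ∃ L' X', Pos G L' (del G A u) ∧ pg.mv X X' ∧ PEq (toK L') X' := by
  obtain ⟨b, L0, v, hp, hv, hpos⟩ := h.move hu
  obtain ⟨F, hF, hFe⟩ := view_move hv
  have h1 : pg.mv (toK L) (F + toK L0) := by
    rw [toK_perm hp, toK_cons]
    exact ⟨_, _, F, rfl, hF, rfl⟩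
  obtain ⟨X', h2, h3⟩ := hX.sim.1.1 _ h1
  refine ⟨_, X', hpos, h2, ?_⟩
  rw [toK_append]
  exact (hFe.add2 (PEq.refl _)).trans h3

open scoped Classical in
theorem real_realize {V : Type} {G : SimpleGraph V} {L : List B} {A : Finset V}
    {X X' : Multiset K} (h : Pos G L A) (hX : PEq (toK L) X) (hm : pg.mv X X') :
    ∃ u ∈ A, ∃ L', Pos G L' (del G A u) ∧ PEq (toK L') X' := by
  obtain ⟨Z, h1, h2⟩ := hX.sim.1.2 _ hm
  obtain ⟨k, X0, F, hk, hF, rfl⟩ := h1
  have hmem : k ∈ toK L := by rw [hk]; exact Multiset.mem_cons_self _ _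
  obtain ⟨b, hb, rfl⟩ : ∃ b ∈ L, (emb b, MB.e) = k := by
    simpa [toK] using hmem
  obtain ⟨L1, L2, rfl⟩ := List.append_of_mem hb
  have hp : (L1 ++ b :: L2).Perm (b :: (L1 ++ L2)) := List.perm_middle
  rw [toK_perm hp, toK_cons, Multiset.cons_inj_right] at hk
  obtain ⟨v, hv, hvF⟩ := cmv_view hF
  obtain ⟨u, hu, hpos⟩ := (h.perm hp).realize hv
  refine ⟨u, hu, _, hpos, ?_⟩
  rw [toK_append, hk]
  exact (hvF.add2 (PEq.refl _)).trans h2

open scoped Classical in
theorem outcome {V : Type} (G : SimpleGraph V) {u : ℤ} (hu : 0 ≤ u) {Y : Multiset K}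
    (hY : pg.term Y) : ∀ (n : ℕ) (A : Finset V) (L : List B) (X : Multiset K), A.card ≤ n →
    Pos G L A → PEq (toK L) X → ∀ t m, 0 ≤ t → pg.P u t X Y m →
    (∀ k, A.card ≤ k → u * (res G k true A : ℤ) ≤ m) ∧
    (∀ k, A.card ≤ k → u * (res G k false A : ℤ) ≤ m + t) := by
  intro n
  induction n using Nat.strong_induction_on with
  | _ n ih =>
  intro A L X hn hL hX t m ht hP
  by_cases hA : A.Nonempty
  · have hc : 0 < A.card := Finset.card_pos.mpr hA
    rcases Gm.P_iff.mp hP with ⟨hX0, -, -⟩ | ⟨τ, hτ, q⟩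
    · obtain ⟨v, hv⟩ := hA
      obtain ⟨L', X', -, h2, -⟩ := real_move hL hX hv
      exact absurd h2 (hX0 _)
    · have h0 := q.nn
      constructor
      · intro k hk
        obtain ⟨k, rfl⟩ : ∃ k', k = k' + 1 := ⟨k - 1, by omega⟩
        rw [res, dif_pos hA, if_pos rfl]
        rcases q.A (Or.inr hY) with ⟨X', hX', h3⟩ | ⟨Y', hY', -⟩
        · obtain ⟨v, hv, L', hL', hP'⟩ := real_realize hL hX hX'
          have hcard := del_card (G := G) hv
          have h4 := (ih _ (by omega) (del G A v) L' X' le_rfl hL' hP' τ _ h0 h3).2 k (by omega)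
          have h5 : A.inf' hA (fun v => 1 + res G k false (del G A v)) ≤
            1 + res G k false (del G A v) := Finset.inf'_le _ hv
          have h6 : ((A.inf' hA (fun v => 1 + res G k false (del G A v)) : ℕ) : ℤ) ≤
            1 + (res G k false (del G A v) : ℤ) := by exact_mod_cast h5
          nlinarith
        · exact absurd hY' (hY _)
      · intro k hk
        obtain ⟨k, rfl⟩ : ∃ k', k = k' + 1 := ⟨k - 1, by omega⟩
        rw [res, dif_pos hA, if_neg (by simp)]
        obtain ⟨v, hv, hsup⟩ := Finset.exists_mem_eq_sup' hA (fun v => 1 + res G k true (del G A v))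
        rw [hsup]
        obtain ⟨L', X', hL', hX', hP'⟩ := real_move hL hX hv
        have hcard := del_card (G := G) hv
        rcases q.B X' hX' with (⟨X'', hX'', h3⟩ | ⟨Y', hY', -⟩) | h3
        · obtain ⟨w, hw, L'', hL'', hP''⟩ := real_realize hL' hP' hX''
          have hcard' := del_card (G := G) hw
          have hne : (del G A v).Nonempty := ⟨w, hw⟩
          have hk1 : 0 < (del G A v).card := Finset.card_pos.mpr hne
          obtain ⟨k, rfl⟩ : ∃ k', k = k' + 1 := ⟨k - 1, by omega⟩
          have h4 := (ih _ (by omega) (del G (del G A v) w) L'' X'' le_rfl hL'' hP'' τ _ h0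
            h3).2 k (by omega)
          rw [res, dif_pos hne, if_pos rfl]
          have h5 : (del G A v).inf' hne (fun w => 1 + res G k false (del G (del G A v) w)) ≤
            1 + res G k false (del G (del G A v) w) := Finset.inf'_le _ hw
          have h6 : (((del G A v).inf' hne
              (fun w => 1 + res G k false (del G (del G A v) w)) : ℕ) : ℤ) ≤
            1 + (res G k false (del G (del G A v) w) : ℤ) := by exact_mod_cast h5
          push_cast
          nlinarith
        · exact absurd hY' (hY _)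
        · have h4 := (ih _ (by omega) (del G A v) L' X' le_rfl hL' hP' τ _ h0 h3).1 k (by omega)
          push_cast
          nlinarith
  · rw [Finset.not_nonempty_iff_eq_empty] at hA
    subst hA
    have hterm : pg.term X := by
      intro X' hX'
      obtain ⟨v, hv, -⟩ := real_realize hL hX hX'
      simp at hv
    have hm : 0 ≤ m := by
      rcases Gm.P_iff.mp hP with ⟨-, -, hm⟩ | ⟨τ, hτ, q⟩
      · exact hm
      · rcases q.A (Or.inr hY) with ⟨X', hX', -⟩ | ⟨Y', hY', -⟩
        · exact absurd hX' (hterm _)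
        · exact absurd hY' (hY _)
    constructor
    · intro k _
      cases k with
      | zero => simpa [res] using hm
      | succ k => simpa [res] using hm
    · intro k _
      cases k with
      | zero => simp [res]; linarith
      | succ k => simp [res]; linarith

/-- a crude bound for every position -/
theorem crude {u τ : ℤ} (hu : 0 ≤ u) (hτ : 0 ≤ τ) : ∀ (n : ℕ) (X : Multiset K), msz X ≤ n →
    ∀ m, (msz X : ℤ) * (u + τ) ≤ m → pg.P u τ X 0 m := by
  intro n
  induction n using Nat.strong_induction_on with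
  | _ n ih =>
  intro X hn m hm
  have h0 : 0 ≤ m := le_trans (by positivity) hm
  by_cases hX : pg.term X
  · exact Gm.P.of_term hX Cm.term_zero h0
  · have step' : ∀ X', msz X' < msz X → (msz X' : ℤ) * (u + τ) ≤ m - (u + τ) ∧ msz X' < n := by
      intro X' h1
      have h2 : (msz X' : ℤ) + 1 ≤ msz X := by exact_mod_cast h1
      refine ⟨?_, by omega⟩
      have h3 : 0 ≤ u + τ := by linarith
      nlinarith
    have step : ∀ X', pg.mv X X' → (msz X' : ℤ) * (u + τ) ≤ m - (u + τ) ∧ msz X' < n :=
      fun X' h => step' X' (pg.lt h)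
    refine Gm.Q.toP (τ := τ) ⟨hτ, ?_, ?_, ?_, ?_⟩ le_rfl
    · intro _
      have : ∃ X', pg.mv X X' := by
        by_contra h
        exact hX (fun X' hX' => h ⟨X', hX'⟩)
      obtain ⟨X', hX'⟩ := this
      obtain ⟨h1, h2⟩ := step X' hX'
      exact Or.inl ⟨X', hX', ih _ h2 X' le_rfl _ (by linarith)⟩
    · intro X' hX'
      obtain ⟨h1, h2⟩ := step X' hX'
      exact Or.inr (ih _ h2 X' le_rfl _ (by linarith))
    · intro Y' hY'
      exact absurd hY' (Cm.term_zero _)
    · intro X' hX'
      obtain ⟨h1, h2⟩ := step' X' (pg.dl_lt hX')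
      exact ⟨0, Gm.dls.refl _, ih _ h2 X' le_rfl _ (by linarith)⟩

end Pool.Agent.Helper66.IL
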