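import Pool.Agent.Helper66.IL.Relax
import Pool.Agent.Helper66.IL.Bridge

/-!
Coverings of trees by pieces, and the closure argument for the cost of an optimal covering.
-/

namespace Pool.Agent.Helper66.IL

open Pool.Agent.Helper44.Idg (Gm Cm)
open Pool.Agent.Helper60.Idg (B)

/-- open pieces: `cut` stands for a cut edge -/
inductive Q where
  | e : Q
  | cut : Q
  | n : Q → Q → Q
deriving DecidableEq

namespace Q

def isCut : Q → Bool
  | cut => true
  | _ => false

end Q

open Q

/-- the marked branch of an open piece; the root is marked if `f` -/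
def tm (f : Bool) : Q → MB
  | .e => .e
  | .cut => .e
  | .n l r => .n (f || l.isCut || r.isCut) (tm false l) (tm false r)

/-- the closed piece obtained from two open pieces -/
def pp (q c : Q) : K := (tm c.isCut q, tm q.isCut c)

/-- re-rooting of pieces -/
inductive TEq : Q → Q → Q → Q → Prop
  | refl (q c : Q) : TEq q c q c
  | symm {q c q' c' : Q} : TEq q c q' c' → TEq q' c' q c
  | trans {q c q' c' q'' c'' : Q} : TEq q c q' c' → TEq q' c' q'' c'' → TEq q c q'' c''
  | sig (q c : Q) : TEq q c c q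
  | rho (x y c : Q) : TEq (.n x y) c x (.n y c)
  | sw (x y c : Q) : TEq (.n x y) c (.n y x) c

theorem TEq.sound {q c q' c' : Q} (h : TEq q c q' c') : PEq {pp q c} {pp q' c'} := by
  induction h with
  | refl => exact PEq.refl _
  | symm _ ih => exact ih.symm
  | trans _ _ ih1 ih2 => exact ih1.trans ih2
  | sig q c => exact PEq.sig _ _
  | rho x y c =>
    have h := PEq.rho (c.isCut || x.isCut || y.isCut) (tm false x) (tm false y) (tm false c)
    have e1 : pp (.n x y) c = (.n (c.isCut || x.isCut || y.isCut) (tm false x) (tm false y),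
      tm false c) := rfl
    have e2 : pp x (.n y c) = (tm false x, .n (c.isCut || x.isCut || y.isCut) (tm false y)
        (tm false c)) := by
      show (tm false x, MB.n (x.isCut || y.isCut || c.isCut) (tm false y) (tm false c)) = _
      generalize x.isCut = a, y.isCut = b, c.isCut = d
      cases a <;> cases b <;> cases d <;> rfl
    rw [e1, e2]; exact h
  | sw x y c =>
    have h := PEq.sw (c.isCut || x.isCut || y.isCut) (tm false x) (tm false y) (tm false c)
    have e2 : pp (.n y x) c = (.n (c.isCut || x.isCut || y.isCut) (tm false y) (tm false x),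
      tm false c) := by
      show (MB.n (c.isCut || y.isCut || x.isCut) (tm false y) (tm false x), tm false c) = _
      generalize x.isCut = a, y.isCut = b, c.isCut = d
      cases a <;> cases b <;> cases d <;> rfl
    rw [e2]; exact h

/-- a table of pieces with values, closed under re-rooting -/
def Tab (T : List (Q × Q × ℤ)) (q c : Q) (w : ℤ) : Prop :=
  ∃ x ∈ T, TEq q c x.1 x.2.1 ∧ x.2.2 ≤ w

theorem Tab.teq {T : List (Q × Q × ℤ)} {q c q' c' : Q} {w : ℤ} (h : TEq q c q' c')
    (ht : Tab T q' c' w) : Tab T q c w := by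
  obtain ⟨x, hx, h1, h2⟩ := ht
  exact ⟨x, hx, h.trans h1, h2⟩

/-- the values of the pieces are bounds for the game -/
def Sound (u t : ℤ) (T : List (Q × Q × ℤ)) : Prop :=
  ∀ x ∈ T, pg.P u t {pp x.1 x.2.1} 0 x.2.2

theorem Sound.tab {u t : ℤ} {T : List (Q × Q × ℤ)} (hT : Sound u t T) {q c : Q} {w : ℤ}
    (h : Tab T q c w) : pg.P u t {pp q c} 0 w := by
  obtain ⟨x, hx, h1, h2⟩ := h
  exact (P_congr h1.sound.symm (PEq.refl _) (hT x hx)).mono le_rfl h2

/-- `Opt T b q v`: the branch `b` can be cut so that the piece of its root is `q`, and the other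
pieces have total value `v`. -/
inductive Opt (T : List (Q × Q × ℤ)) : B → Q → ℤ → Prop
  | e : Opt T .e .e 0
  | n {x y : B} {p q : Q} {v w : ℤ} : Opt T x p v → Opt T y q w → Opt T (.n x y) (.n p q) (v + w)
  | cut {b : B} {q : Q} {v w : ℤ} : Opt T b q v → Tab T q .cut w → Opt T b .cut (v + w)

def mkf (f : Bool) (b : MB) : MB := if f then MB.mk b else b

theorem mkf_e (f : Bool) : mkf f .e = .e := by cases f <;> rfl

theorem mkf_n (g m : Bool) (x y : MB) : mkf g (.n m x y) = .n (m || g) x y := by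
  cases g <;> cases m <;> rfl

theorem mk_mkf (f : Bool) (b : MB) : MB.mk (mkf f b) = MB.mk b := by
  cases f <;> cases b <;> rfl

/-- soundness of the options -/
theorem Opt.sound {u t : ℤ} {T : List (Q × Q × ℤ)} (hT : Sound u t T) {b : B} {q : Q} {v : ℤ}
    (h : Opt T b q v) : ∀ (f : Bool) (c : MB) (m : ℤ),
    pg.P u t {(tm f q, mkf q.isCut c)} 0 m → pg.P u t {(mkf f (emb b), c)} 0 (m + v) := by
  induction h with
  | e =>
    intro f c m h
    rw [add_zero, emb, mkf_e]
    exact h
  | @n x y p q v w hx hy ihx ihy =>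
    intro f c m h
    have h0 : pg.P u t {(MB.n (f || p.isCut || q.isCut) (tm false p) (tm false q), c)} 0 m := h
    have h1 : pg.P u t {(tm false q, mkf q.isCut (MB.n (f || p.isCut) (tm false p) c))} 0 m := by
      rw [mkf_n]
      exact P_congr ((PEq.sw _ _ _ _).trans (PEq.rho _ _ _ _)) (PEq.refl _) h0
    have h2 := ihy false (MB.n (f || p.isCut) (tm false p) c) m h1
    have h3 : pg.P u t {(tm false p, mkf p.isCut (MB.n f (emb y) c))} 0 (m + w) := by
      rw [mkf_n]
      exact P_congr ((PEq.rho _ _ _ _).symm.trans ((PEq.sw _ _ _ _).trans (PEq.rho _ _ _ _)))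
        (PEq.refl _) h2
    have h4 := ihx false (MB.n f (emb y) c) (m + w) h3
    have e1 : mkf f (emb (.n x y)) = MB.n f (emb x) (emb y) := by
      rw [emb, mkf_n]; simp
    rw [e1, show m + (v + w) = m + w + v by ring]
    exact P_congr (PEq.rho _ _ _ _).symm (PEq.refl _) h4
  | @cut b q v w hb htab ih =>
    intro f c m h
    have h1 : pg.P u t {(MB.mk c, MB.e)} 0 m := P_congr (PEq.sig _ _) (PEq.refl _) h
    have h2 : pg.P u t {(tm true q, mkf q.isCut MB.e)} 0 w := by
      have := hT.tab htab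
      rw [mkf_e]
      exact this
    have h3 := ih true .e w h2
    have h4 : pg.P u t {(MB.mk (mkf f (emb b)), MB.e)} 0 (w + v) := by
      rw [mk_mkf]; exact h3
    have := P_cut h4 h1
    rwa [show m + (v + w) = w + v + m by ring]

/-- `Dom T b b' s`: every covering of a tree containing the branch `b'` gives a covering of the
tree with `b` instead of `b'` at additional cost `s`. -/
def Dom (T : List (Q × Q × ℤ)) (b b' : B) (s : ℤ) : Prop :=
  ∀ q v, Opt T b' q v → ∀ c w, Tab T q c w →
    ∃ q' v' w', Opt T b q' v' ∧ Tab T q' c w' ∧ v' + w' ≤ v + w + s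

theorem Dom.refl (T : List (Q × Q × ℤ)) (b : B) : Dom T b b 0 := by
  intro q v h c w h'
  exact ⟨q, v, w, h, h', by linarith⟩

theorem Dom.trans {T : List (Q × Q × ℤ)} {b b' b'' : B} {s s' : ℤ} (h : Dom T b b' s)
    (h' : Dom T b' b'' s') : Dom T b b'' (s + s') := by
  intro q v h1 c w h2
  obtain ⟨q1, v1, w1, h3, h4, h5⟩ := h' q v h1 c w h2
  obtain ⟨q2, v2, w2, h6, h7, h8⟩ := h q1 v1 h3 c w1 h4
  exact ⟨q2, v2, w2, h6, h7, by linarith⟩

theorem Dom.mono {T : List (Q × Q × ℤ)} {b b' : B} {s s' : ℤ} (h : Dom T b b' s) (hs : s ≤ s') :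
    Dom T b b' s' := by
  intro q v h1 c w h2
  obtain ⟨q1, v1, w1, h3, h4, h5⟩ := h q v h1 c w h2
  exact ⟨q1, v1, w1, h3, h4, by linarith⟩

theorem Opt.ex {T : List (Q × Q × ℤ)} {b b' : B} {s : ℤ} (y : B)
    (hn : ∀ p r v w, Opt T b' p v → Opt T y r w → ∀ c m, Tab T (.n p r) c m →
      ∃ q' v' w', Opt T (.n b y) q' v' ∧ Tab T q' c w' ∧ v' + w' ≤ v + w + m + s) :
    Dom T (.n b y) (.n b' y) s := by
  intro q v h
  generalize hB : B.n b' y = b0 at h
  induction h with
  | e => cases hB
  | @n x y' p r v w hx hy ihx ihy =>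
    cases hB
    intro c m h1
    exact hn p r v w hx hy c m h1
  | @cut b1 q v w hb htab ih =>
    intro c m h1
    obtain ⟨q', v', w', h3, h4, h5⟩ := ih hB .cut w htab
    exact ⟨.cut, v' + w', m, Opt.cut h3 h4, h1, by linarith⟩

theorem Dom.left {T : List (Q × Q × ℤ)} {b b' : B} {s : ℤ} (h : Dom T b b' s) (y : B) :
    Dom T (.n b y) (.n b' y) s := by
  apply Opt.ex
  intro p r v w hp hr c m h1
  obtain ⟨p', v', w', h3, h4, h5⟩ := h p v hp (.n r c) m (h1.teq (TEq.rho p r c).symm)
  exact ⟨.n p' r, v' + w, w', Opt.n h3 hr, h4.teq (TEq.rho p' r c), by linarith⟩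

theorem Opt.swap {T : List (Q × Q × ℤ)} {x y : B} {q : Q} {v : ℤ} (h : Opt T (.n x y) q v) :
    ∀ c w, Tab T q c w → ∃ q', Opt T (.n y x) q' v ∧ Tab T q' c w := by
  generalize hB : B.n x y = b0 at h
  induction h with
  | e => cases hB
  | @n x y' p r v w hx hy ihx ihy =>
    cases hB
    intro c m h1
    refine ⟨.n r p, ?_, h1.teq (TEq.sw r p c)⟩
    rw [add_comm]
    exact Opt.n hy hx
  | @cut b1 q v w hb htab ih =>
    intro c m h1
    obtain ⟨q', h3, h4⟩ := ih hB .cut w htab
    exact ⟨.cut, Opt.cut h3 h4, h1⟩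

theorem Dom.sw (T : List (Q × Q × ℤ)) (x y : B) : Dom T (.n x y) (.n y x) 0 := by
  intro q v h c w h'
  obtain ⟨q', h1, h2⟩ := h.swap c w h'
  exact ⟨q', v, w, h1, h2, by linarith⟩

theorem Dom.n {T : List (Q × Q × ℤ)} {x x' y y' : B} {s s' : ℤ} (hx : Dom T x x' s)
    (hy : Dom T y y' s') : Dom T (.n x y) (.n x' y') (s + s') := by
  have h1 := hx.left y
  have h2 := ((Dom.sw T x' y).trans (hy.left x')).trans (Dom.sw T y' x')
  have := h1.trans h2
  exact this.mono (by linarith)

/-- the closure argument -/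
theorem closure {T : List (Q × Q × ℤ)} (S : B → Prop) (l : ℤ) (h0 : S .e)
    (hS : ∀ x y, S x → S y → ∃ z, S z ∧ Dom T (.n x y) z (l * (x.size + y.size + 1 - z.size))) :
    ∀ b : B, ∃ z, S z ∧ Dom T b z (l * (b.size - z.size)) := by
  intro b
  induction b with
  | e =>
    refine ⟨.e, h0, ?_⟩
    simpa using Dom.refl T .e
  | n x y ihx ihy =>
    obtain ⟨x', hx, dx⟩ := ihx
    obtain ⟨y', hy, dy⟩ := ihy
    obtain ⟨z, hz, dz⟩ := hS x' y' hx hy
    refine ⟨z, hz, ((dx.n dy).trans dz).mono ?_⟩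
    have : ((B.n x y).size : ℤ) = x.size + y.size + 1 := by
      simp [Helper60.Idg.B.size]
    rw [this]
    apply le_of_eq
    ring

/-- the bound for all trees -/
theorem bound {u t l C : ℤ} {T : List (Q × Q × ℤ)} (hT : Sound u t T) (S : B → Prop) (h0 : S .e)
    (hS : ∀ x y, S x → S y → ∃ z, S z ∧ Dom T (.n x y) z (l * (x.size + y.size + 1 - z.size)))
    (hC : ∀ z, S z → ∃ q v w, Opt T z q v ∧ Tab T q .e w ∧ v + w ≤ C + l * z.size) (b : B) :
    pg.P u t {(emb b, .e)} 0 (l * b.size + C) := by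
  obtain ⟨z, hz, hd⟩ := closure S l h0 hS b
  obtain ⟨q, v, w, h1, h2, h3⟩ := hC z hz
  obtain ⟨q', v', w', h4, h5, h6⟩ := hd q v h1 .e w h2
  have h7 : pg.P u t {(tm false q', mkf q'.isCut MB.e)} 0 w' := by
    have := hT.tab h5
    rw [mkf_e]
    exact this
  have h8 := h4.sound hT false .e w' h7
  refine h8.mono le_rfl ?_
  have : l * ((b.size : ℤ) - z.size) = l * b.size - l * z.size := by ring
  linarith

end Pool.Agent.Helper66.IL
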