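import Pool.Agent.Helper66.IL.Bridge

/-!
The bounds for all subcubic trees and the upper bounds for the constants, from the bound for the
order on positions.
-/

namespace Pool.Agent.Helper66.IL

open Pool.Agent.Helper44.Idg (Gm Cm)
open Pool.Agent.Helper60.Idg (B SubcubicTree Idim Iswell fdim fswell cdim cswell tree_pos play_eq
  legal_empty play_le limsup_le_of_bound res)
open scoped Classical

variable {D t C : ℤ}

theorem tree_bound (hD : 0 < D) (ht : 0 ≤ t)
    (h : ∀ b : B, pg.P (48 * D) t {(emb b, .e)} 0 (25 * D * b.size + C))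
    {V : Type} [Fintype V] {T : SimpleGraph V} (hT : SubcubicTree T) :
    (Idim T : ℝ) ≤ 25 / 48 * (Fintype.card V : ℝ) + C / (48 * D) ∧
    (Iswell T : ℝ) ≤ 25 / 48 * (Fintype.card V : ℝ) + (C + t) / (48 * D) := by
  obtain ⟨b, hpos, hs⟩ := tree_pos hT
  have h1 := outcome T (u := 48 * D) (by linarith) (Y := 0) Cm.term_zero _ Finset.univ [b]
    {(emb b, .e)} le_rfl hpos (PEq.refl _) t _ ht (h b)
  have e1 : Idim T = res T (Fintype.card V) true Finset.univ := by
    rw [Idim, play_eq, legal_empty]; simp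
  have e2 : Iswell T = res T (Fintype.card V) false Finset.univ := by
    rw [Iswell, play_eq, legal_empty]; simp
  have h2 := h1.1 (Fintype.card V) (by simp)
  have h3 := h1.2 (Fintype.card V) (by simp)
  rw [← e1, hs] at h2
  rw [← e2, hs] at h3
  have hD' : (0 : ℝ) < 48 * D := by
    have : (0 : ℝ) < D := by exact_mod_cast hD
    linarith
  have h2' : (48 * D : ℝ) * (Idim T : ℝ) ≤ 25 * D * (Fintype.card V : ℝ) + C := by
    exact_mod_cast h2
  have h3' : (48 * D : ℝ) * (Iswell T : ℝ) ≤ 25 * D * (Fintype.card V : ℝ) + C + t := by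
    exact_mod_cast h3
  constructor
  · rw [← mul_le_mul_iff_right₀ hD']
    refine h2'.trans (le_of_eq ?_)
    field_simp
  · rw [← mul_le_mul_iff_right₀ hD']
    refine h3'.trans (le_of_eq ?_)
    field_simp
    ring

theorem fdim_bound (c d : ℝ) (hc : 0 ≤ c) (hd : 0 ≤ d)
    (h : ∀ (n : ℕ) (T : SimpleGraph (Fin n)), SubcubicTree T → (Idim T : ℝ) ≤ c * n + d) (n : ℕ) :
    (fdim n : ℝ) ≤ c * n + d := by
  unfold fdim
  set S : Set ℕ := {k | ∃ T : SimpleGraph (Fin n), SubcubicTree T ∧ Idim T = k} with hS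
  by_cases hne : S.Nonempty
  · have hbdd : BddAbove S := by
      refine ⟨n, ?_⟩
      rintro k ⟨T, hT, rfl⟩
      have := play_le T (Fintype.card (Fin n)) true ∅
      simpa [Idim] using this
    obtain ⟨T, hT, hk⟩ := Nat.sSup_mem hne hbdd
    rw [← hk]
    exact h n T hT
  · rw [Set.not_nonempty_iff_eq_empty] at hne
    rw [hne]
    simp only [csSup_empty, Nat.bot_eq_zero, Nat.cast_zero]
    positivity

theorem fswell_bound (c d : ℝ) (hc : 0 ≤ c) (hd : 0 ≤ d)
    (h : ∀ (n : ℕ) (T : SimpleGraph (Fin n)), SubcubicTree T → (Iswell T : ℝ) ≤ c * n + d)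
    (n : ℕ) : (fswell n : ℝ) ≤ c * n + d := by
  unfold fswell
  set S : Set ℕ := {k | ∃ T : SimpleGraph (Fin n), SubcubicTree T ∧ Iswell T = k} with hS
  by_cases hne : S.Nonempty
  · have hbdd : BddAbove S := by
      refine ⟨n, ?_⟩
      rintro k ⟨T, hT, rfl⟩
      have := play_le T (Fintype.card (Fin n)) false ∅
      simpa [Iswell] using this
    obtain ⟨T, hT, hk⟩ := Nat.sSup_mem hne hbdd
    rw [← hk]
    exact h n T hT
  · rw [Set.not_nonempty_iff_eq_empty] at hne
    rw [hne]
    simp only [csSup_empty, Nat.bot_eq_zero, Nat.cast_zero]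
    positivity

theorem consts (hD : 0 < D) (ht : 0 ≤ t) (hC : 0 ≤ C)
    (h : ∀ b : B, pg.P (48 * D) t {(emb b, .e)} 0 (25 * D * b.size + C)) :
    cdim ≤ 25 / 48 ∧ cswell ≤ 25 / 48 := by
  have hD' : (0 : ℝ) < 48 * D := by
    have : (0 : ℝ) < D := by exact_mod_cast hD
    linarith
  have hC' : (0 : ℝ) ≤ C := by exact_mod_cast hC
  have ht' : (0 : ℝ) ≤ t := by exact_mod_cast ht
  constructor
  · refine limsup_le_of_bound fdim _ (C / (48 * D)) (fun n _ => ?_)
    refine fdim_bound _ _ (by norm_num) (by positivity) (fun n T hT => ?_) n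
    simpa using (tree_bound hD ht h hT).1
  · refine limsup_le_of_bound fswell _ ((C + t) / (48 * D)) (fun n _ => ?_)
    refine fswell_bound _ _ (by norm_num) (by positivity) (fun n T hT => ?_) n
    simpa using (tree_bound hD ht h hT).2

end Pool.Agent.Helper66.IL
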